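import Pool.Agent.P.MP_74dd9d_nt.PS.Step

/-! Non-residues of a quadratic polynomial on a long geometric progression. -/

set_option autoImplicit false

namespace Pool.Agent.P.MP_74dd9d_nt.AE

open Polynomial Finset

lemma weil_pow {q : ℕ} [Fact q.Prime] (hq2 : q ≠ 2) {α β g : ZMod q} (hα : α ≠ 0) (hβ : β ≠ 0)
    (hc : α * β + 1 ≠ 0) (hg : g ≠ 0) {k : ℕ} (k0 : 0 < k) (kq : k < q) :
    |∑ t : ZMod q, (quadraticChar (ZMod q) ((β * (g * t ^ k) + α) ^ 2 + 4 * (g * t ^ k)) : ℝ)| ≤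
      12 * (2 * k : ℕ) * √q := by
  set K := AlgebraicClosure (ZMod q)
  set φ := algebraMap (ZMod q) K with hφ
  have inj : ∀ {x : ZMod q}, x ≠ 0 → φ x ≠ 0 := fun h => (map_ne_zero φ).2 h
  obtain ⟨s, hs⟩ := IsAlgClosed.exists_pow_nat_eq (φ (α * β + 1)) two_pos
  have s0 : s ≠ 0 := by rintro rfl; exact inj hc (by rw [← hs]; simp)
  rw [map_add, map_mul, map_one] at hs
  have b0 := inj hβ
  have g0 := inj hg
  obtain ⟨y, hy⟩ : ∃ y, φ β * y = 2 * s - 2 := ⟨_, mul_div_cancel₀ _ b0⟩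
  obtain ⟨x, hx⟩ : ∃ x, φ β * x = y - φ α := ⟨_, mul_div_cancel₀ _ b0⟩
  obtain ⟨w, hw⟩ : ∃ w, φ g * w = x := ⟨_, mul_div_cancel₀ _ g0⟩
  obtain ⟨ξ, rfl⟩ := IsAlgClosed.exists_pow_nat_eq w k0
  have h1 : φ β * (φ g * ξ ^ k) + φ α = y := by rw [hw, hx]; ring
  have h2 : y ^ 2 + 4 * (φ g * ξ ^ k) = 0 := by
    refine mul_left_cancel₀ (pow_ne_zero 2 b0) ?_
    rw [hw]
    linear_combination (φ β * y + 2 * s + 2) * hy + 4 * φ β * hx + 4 * hs
  have x0 : ξ ≠ 0 := by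
    rintro rfl
    rw [zero_pow k0.ne', mul_zero, mul_zero] at h1 h2
    rw [← h1] at h2
    exact inj hα (by simpa using h2)
  have two : (2 : K) ≠ 0 := by
    have := inj (x := 2) (Ring.two_ne_zero (by rwa [ZMod.ringChar_zmod_n]))
    rwa [map_ofNat] at this
  have kk : (k : K) ≠ 0 := by
    have := inj (x := (k : ZMod q)) (by
      rw [Ne, ZMod.natCast_eq_zero_iff]; exact Nat.not_dvd_of_pos_of_lt k0 kq)
    rwa [map_natCast] at this
  have := PS.weil hq2 (f := (C β * (C g * X ^ k) + C α) ^ 2 + 4 * (C g * X ^ k)) (m := 2 * k)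
    (by omega) (by compute_degree!; omega) (PS.not_sq_of_simple (K := K) (ξ := ξ) ?_ ?_)
  · simpa using this
  · simp only [map_add, map_mul, map_pow, aeval_C, aeval_X, map_ofNat, ← hφ]
    rw [h1, h2]
  · have e : aeval ξ (derivative ((C β * (C g * X ^ k) + C α) ^ 2 + 4 * (C g * X ^ k))) =
        (2 * (φ β * (φ g * ξ ^ k) + φ α) * φ β + 4) * (φ g * (k * ξ ^ (k - 1))) := by
      simp [derivative_pow, ← hφ, map_ofNat]
      ring
    rw [e, h1, show 2 * y * φ β + 4 = 2 * 2 * s by linear_combination 2 * hy]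
    exact mul_ne_zero (mul_ne_zero (mul_ne_zero two two) s0)
      (mul_ne_zero g0 (mul_ne_zero kk (pow_ne_zero _ x0)))

lemma coset {q : ℕ} [Fact q.Prime] (hq2 : q ≠ 2) {α β g h : ZMod q} (hα : α ≠ 0) (hβ : β ≠ 0)
    (hc : α * β + 1 ≠ 0) (hg : g ≠ 0) (hh : h ≠ 0) (hd : 75 * √q ≤ orderOf h) :
    (#{j ∈ range (orderOf h) | quadraticChar (ZMod q)
      ((β * (g * h ^ j) + α) ^ 2 + 4 * (g * h ^ j)) = -1} : ℝ) ≤ 2 / 3 * orderOf h := by
  obtain ⟨k, hk⟩ := ZMod.orderOf_dvd_card_sub_one hh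
  have q2 := (Fact.out : q.Prime).two_le
  have k0 : 0 < k := Nat.pos_of_ne_zero (by rintro rfl; omega)
  have d0 : 0 < orderOf h := Nat.pos_of_ne_zero fun e => by rw [e] at hk; omega
  have kq : k < q := by have := Nat.le_mul_of_pos_left k d0; omega
  have W := (abs_le.1 (weil_pow hq2 hα hβ hc hg k0 kq)).1
  set F : ZMod q → ℤ := fun x => quadraticChar (ZMod q) ((β * (g * x) + α) ^ 2 + 4 * (g * x))
    with hF
  set G := {j ∈ range (orderOf h) | ¬ F (h ^ j) = -1} with hG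
  set T := {t ∈ (univ : Finset (ZMod q)) | ¬ F (t ^ k) = -1} with hT
  have a1 : ∑ t : ZMod q, (F (t ^ k) : ℝ) ≤ 2 * #T - q := by
    have : ∀ t : ZMod q, (F (t ^ k) : ℝ) ≤ 2 * (if ¬ F (t ^ k) = -1 then 1 else 0) - 1 := by
      intro t
      rcases quadraticChar_isQuadratic (ZMod q)
        ((β * (g * t ^ k) + α) ^ 2 + 4 * (g * t ^ k)) with e | e | e <;>
        simp only [hF, e] <;> norm_num
    refine (sum_le_sum fun t _ => this t).trans (le_of_eq ?_)
    rw [sum_sub_distrib, ← mul_sum, sum_boole]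
    simp [hT]
  have a2 : #(T.erase 0) ≤ k * #(G.image (h ^ ·)) := by
    refine card_le_mul_card_image_of_maps_to (f := (· ^ k)) (fun t ht => ?_) k fun x _ => ?_
    · obtain ⟨t0, t1⟩ := mem_erase.1 ht
      have : NeZero (orderOf h) := ⟨d0.ne'⟩
      obtain ⟨j, j1, j2⟩ := (IsPrimitiveRoot.orderOf h).eq_pow_of_pow_eq_one (ξ := t ^ k) (by
        rw [← pow_mul, mul_comm, ← hk]; exact ZMod.pow_card_sub_one_eq_one t0)
      exact mem_image.2 ⟨j, mem_filter.2 ⟨mem_range.2 j1, j2 ▸ (mem_filter.1 t1).2⟩, j2⟩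
    · refine le_trans (card_le_card fun t ht => ?_)
        ((Multiset.toFinset_card_le _).trans (card_nthRoots k x))
      exact Multiset.mem_toFinset.2 ((mem_nthRoots k0).2 (mem_filter.1 ht).2)
  have a3 : #T ≤ k * #G + 1 := by
    have := pred_card_le_card_erase (s := T) (a := 0)
    have := Nat.mul_le_mul_left k (card_image_le (s := G) (f := (h ^ ·)))
    omega
  have a4 := card_filter_add_card_filter_not (s := range (orderOf h)) fun j => F (h ^ j) = -1
  rw [card_range, ← hG] at a4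
  have a5 : (#T : ℝ) ≤ k * #G + 1 := by exact_mod_cast a3
  have a6 : (q : ℝ) = orderOf h * k + 1 := by exact_mod_cast (by omega : q = orderOf h * k + 1)
  have a7 : (1 : ℝ) ≤ k := by exact_mod_cast k0
  have a8 : (1 : ℝ) ≤ √q := Real.one_le_sqrt.2 (by exact_mod_cast (by omega : 1 ≤ q))
  have a9 : (orderOf h : ℝ) / 3 ≤ #G := by
    push_cast at W
    have : k * ((orderOf h : ℝ) / 3) ≤ k * #G := by nlinarith
    exact le_of_mul_le_mul_left this (by linarith)
  have a10 : (#{j ∈ range (orderOf h) | F (h ^ j) = -1} : ℝ) + #G = orderOf h := by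
    exact_mod_cast a4
  linarith

end Pool.Agent.P.MP_74dd9d_nt.AE
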