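import Pool.Agent.P.MP_74dd9d_nt.AE.Rough

/-! Primes modulo which a given integer has order much larger than the square root. -/

set_option autoImplicit false

namespace Pool.Agent.P.MP_74dd9d_nt.AE

open Finset Filter Topology ArithmeticFunction

lemma su (s t : Finset ℕ) : ∑ n ∈ s ∪ t, Λ n ≤ ∑ n ∈ s, Λ n + ∑ n ∈ t, Λ n := by
  rw [← sum_union_inter]
  exact le_add_of_nonneg_right (sum_nonneg fun _ _ => vonMangoldt_nonneg)

lemma sum_le_card {S : Finset ℕ} {N : ℕ} (h : ∀ n ∈ S, n ≤ N) :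
    ∑ n ∈ S, Λ n ≤ #S * Real.log N := by
  rw [← nsmul_eq_mul]
  refine sum_le_card_nsmul _ _ _ fun n hn => vonMangoldt_le_log.trans ?_
  rcases n.eq_zero_or_pos with rfl | h0
  · simpa using Real.log_natCast_nonneg N
  · exact Real.log_le_log (by exact_mod_cast h0) (by exact_mod_cast h n hn)

lemma small_ord {c : ℕ} (hc : 2 ≤ c) (D : ℕ) (S : Finset ℕ)
    (hS : ∀ q ∈ S, q.Prime ∧ 0 < orderOf (c : ZMod q) ∧ orderOf (c : ZMod q) ≤ D) :
    ∑ q ∈ S, Λ q ≤ D ^ 2 * Real.log c := by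
  have h1 : ∏ q ∈ S, q ∣ ∏ d ∈ Icc 1 D, (c ^ d - 1) := by
    refine prod_primes_dvd _ (fun q hq => (hS q hq).1.prime) fun q hq => ?_
    refine Dvd.dvd.trans ?_ (dvd_prod_of_mem _ (mem_Icc.2 (hS q hq).2))
    refine (Nat.modEq_iff_dvd' (Nat.one_le_pow _ _ (by omega))).1 ?_
    rw [← ZMod.natCast_eq_natCast_iff]
    push_cast
    exact (pow_orderOf_eq_one _).symm
  have h2 : ∏ q ∈ S, q ≤ (c ^ D) ^ D := by
    refine (Nat.le_of_dvd (prod_pos fun d hd => Nat.sub_pos_of_lt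
      (Nat.one_lt_pow (by have := (mem_Icc.1 hd).1; omega) hc)) h1).trans ?_
    simpa using prod_le_pow_card (Icc 1 D) (fun d => c ^ d - 1) (c ^ D) fun d hd =>
      (Nat.sub_le _ _).trans (Nat.pow_le_pow_right (by omega) (mem_Icc.1 hd).2)
  rw [sum_congr rfl fun q hq => vonMangoldt_apply_prime (hS q hq).1,
    ← Real.log_prod fun q hq => by exact_mod_cast (hS q hq).1.ne_zero, ← Nat.cast_prod]
  refine (Real.log_le_log (by exact_mod_cast prod_pos fun q hq => (hS q hq).1.pos)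
    (Nat.cast_le.2 h2)).trans (le_of_eq ?_)
  push_cast
  rw [Real.log_pow, Real.log_pow]
  ring

theorem big_order {c : ℕ} (hc : 2 ≤ c) {K : ℝ} (hK : 1 ≤ K) :
    ∃ q : ℕ, q.Prime ∧ c < q ∧ K * √q ≤ orderOf (c : ZMod q) := by
  classical
  by_contra H
  push Not at H
  have lc : 0 ≤ Real.log c := Real.log_natCast_nonneg c
  set M0 := 4 * Real.exp 6 * Real.log c + 1 with hM0
  have M1 : 1 ≤ M0 := le_add_of_nonneg_left (by positivity)
  set U := 2 ^ 16 * Real.exp 24 * K * M0 with hU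
  have U0 : 0 < U := by positivity
  set s := 2 * Real.exp 8 * U ^ 2 with hs
  set P0 := Pr s \ range 8 with hP0
  set σ := ∑ p ∈ P0, 1 / (p : ℝ) with hσ
  set u := Real.exp (σ / 2) with hu
  have u0 : 0 < u := Real.exp_pos _
  have u1 : 1 ≤ u := Real.one_le_exp (by positivity)
  have u2 : Real.exp σ = u ^ 2 := by rw [hu, ← Real.exp_nat_mul]; congr 1; push_cast; ring
  have uU : U ≤ u := by
    have s2 := sum_sdiff_ge (Pr s) (range 8)
    have s3 := sum_range_inv_le 8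
    have s4 := SS_lower s
    have s5 : Real.exp (SS s) ≤ Real.exp 8 * u ^ 2 := by
      rw [← u2, ← Real.exp_add, SS]
      push_cast at s3
      exact Real.exp_le_exp.2 (by linarith)
    refine (pow_le_pow_iff_left₀ U0.le u0.le two_ne_zero).1 ?_
    exact le_of_mul_le_mul_left (by linarith) (Real.exp_pos 8)
  set l := (Real.exp 6 * u ^ 2)⁻¹ with hl
  have l0 : 0 < l := by positivity
  have m0 : ∀ p ∈ P0, p.Prime ∧ 8 ≤ p := fun p hp =>
    ⟨(mem_Pr.1 (mem_sdiff.1 hp).1).2, by simpa using (mem_sdiff.1 hp).2⟩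
  have lim := rough P0 (fun p hp => (m0 p hp).1) 1 one_pos fun p hp => (m0 p hp).1.not_dvd_one
  have low : 3 / 4 * l < 1 / ((Nat.totient 1 : ℕ) : ℝ) * ∏ p ∈ P0, (1 - 1 / ((p : ℝ) - 1)) := by
    have := prod_lower (P := P0) fun p hp => (m0 p hp).2
    rw [show -σ - 6 = -(6 + σ) by ring, Real.exp_neg, Real.exp_add, u2] at this
    simp only [Nat.totient_one, Nat.cast_one, div_one, one_mul]
    linarith
  set M := M0 * u with hM
  have MM : 1 ≤ M := one_le_mul_of_one_le_of_one_le M1 u1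
  obtain ⟨N, h1, h2, h3, h4, h5, h6⟩ := ((lim.eventually (lt_mem_nhds low)).and
    ((small_err (4 + 8 * (K + M) * Real.exp 388) (ε := l / 8) (by positivity)).and
    ((PS.hlog.eventually_ge_atTop (256 * s)).and ((PS.hlog.eventually_ge_atTop (256 * c)).and
    ((PS.hlog.eventually_ge_atTop 1).and (eventually_gt_atTop 0)))))).exists
  have z0 : (0 : ℝ) < N := by exact_mod_cast h6
  have hz := (Real.exp_log z0).symm
  set Z := Real.log N with hZ
  set r := √(N : ℝ) with hr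
  have r1 : r = Real.exp (Z / 2) := by rw [Real.exp_half, ← hz]
  have r2 : 1 ≤ r := r1 ▸ Real.one_le_exp (by linarith)
  have r3 : r ^ 2 = N := Real.sq_sqrt z0.le
  set R := Real.exp (9 / 10 * Z) with hR
  set t := Z / 256 with ht
  set T := {n ∈ range (N + 1) | n ≡ 1 [MOD 1] ∧ ∀ p ∈ P0, ¬ n ≡ 1 [MOD p]} with hT
  set S := T.filter fun q : ℕ => q.Prime ∧ Real.exp t < q with hS
  have mS : ∀ q ∈ S, q ≤ N ∧ q.Prime ∧ Real.exp t < q ∧ (∀ p ∈ P0, ¬ p ∣ q - 1) ∧
      orderOf (c : ZMod q) ∣ q - 1 ∧ (orderOf (c : ZMod q) : ℝ) < K * r := fun q hq => by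
    obtain ⟨a1, a2, a3⟩ := mem_filter.1 hq
    obtain ⟨a4, -, a5⟩ := mem_filter.1 a1
    have a6 : q ≤ N := Nat.lt_succ_iff.1 (mem_range.1 a4)
    have a7 : c < q := by
      have := Real.add_one_le_exp t
      exact_mod_cast (by linarith : (c : ℝ) < q)
    have : Fact q.Prime := ⟨a2⟩
    refine ⟨a6, a2, a3, fun p hp e => a5 p hp ((Nat.modEq_iff_dvd' a2.one_le).2 e).symm,
      ZMod.orderOf_dvd_card_sub_one ?_, (H q a2 a7).trans_le (by rw [hr]; gcongr)⟩
    rw [Ne, ZMod.natCast_eq_zero_iff]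
    exact Nat.not_dvd_of_pos_of_lt (by omega) a7
  set S1 := {q ∈ S | orderOf (c : ZMod q) ≤ ⌊r / M⌋₊} with hS1
  set S2 := {q ∈ S | ¬ orderOf (c : ZMod q) ≤ ⌊r / M⌋₊} with hS2
  have a1 : 3 / 4 * l * N < ∑ n ∈ T, Λ n := by
    rw [lt_div_iff₀ z0] at h1
    refine h1.trans_le (le_of_eq ?_)
    rw [hT, sum_filter]
    exact sum_congr rfl fun n _ => by unfold ind; split_ifs <;> simp
  have a2 : ∑ n ∈ T, Λ n ≤ ∑ n ∈ Ioc 0 N with ¬ n.Prime, Λ n +
      (∑ n ∈ range (N + 1) with n ≤ ⌊Real.exp t⌋₊, Λ n + (∑ n ∈ S1, Λ n + ∑ n ∈ S2, Λ n)) := by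
    refine le_trans ?_ ((su _ _).trans (add_le_add_right ((su _ _).trans
      (add_le_add_right (su _ _) _)) _))
    refine sum_le_sum_of_subset_of_nonneg (fun n hn => ?_) fun _ _ _ => vonMangoldt_nonneg
    have b1 := (mem_filter.1 hn).1
    rw [hS1, hS2, filter_union_filter_not_eq]
    by_cases b2 : n ≤ ⌊Real.exp t⌋₊
    · exact mem_union_right _ (mem_union_left _ (mem_filter.2 ⟨b1, b2⟩))
    by_cases b3 : n.Prime
    · exact mem_union_right _ (mem_union_right _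
        (mem_filter.2 ⟨hn, b3, Nat.lt_of_floor_lt (not_le.1 b2)⟩))
    · exact mem_union_left _ (mem_filter.2 ⟨mem_Ioc.2 ⟨by omega, by simpa [Nat.lt_succ_iff] using b1⟩, b3⟩)
  have rR : r * Real.exp (64 * t) ≤ R := by
    rw [r1, ← Real.exp_add]; exact Real.exp_le_exp.2 (by linarith)
  have e1 : 1 ≤ Real.exp (64 * t) := Real.one_le_exp (by linarith)
  have a3 : ∑ n ∈ Ioc 0 N with ¬ n.Prime, Λ n ≤ 2 * Z * R := by
    have b1 := Chebyshev.psi_sub_theta_eq_sum_not_prime N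
    have b2 := (abs_le.1 (Chebyshev.abs_psi_sub_theta_le_sqrt_mul_log (x := N)
      (by exact_mod_cast h6))).2
    rw [b1, Nat.floor_natCast] at b2
    have b3 : r ≤ R := le_trans (le_mul_of_one_le_right (by linarith) e1) rR
    exact b2.trans (by rw [← hr, ← hZ]; nlinarith)
  have a4 : ∑ n ∈ range (N + 1) with n ≤ ⌊Real.exp t⌋₊, Λ n ≤ 2 * Z * R := by
    refine (sum_le_card (N := N) fun n hn =>
      Nat.lt_succ_iff.1 (mem_range.1 (mem_filter.1 hn).1)).trans ?_
    have b1 : #{n ∈ range (N + 1) | n ≤ ⌊Real.exp t⌋₊} ≤ ⌊Real.exp t⌋₊ + 1 := by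
      simpa using card_le_card (t := range (⌊Real.exp t⌋₊ + 1)) fun n hn =>
        mem_range.2 (Nat.lt_succ_of_le (mem_filter.1 hn).2)
    have b2 := Nat.floor_le (Real.exp_pos t).le
    have b3 : Real.exp t ≤ R := Real.exp_le_exp.2 (by linarith)
    have b4 : 1 ≤ R := Real.one_le_exp (by linarith)
    have b5 : (#{n ∈ range (N + 1) | n ≤ ⌊Real.exp t⌋₊} : ℝ) ≤ 2 * R := by
      have : (#{n ∈ range (N + 1) | n ≤ ⌊Real.exp t⌋₊} : ℝ) ≤ ⌊Real.exp t⌋₊ + 1 := by
        exact_mod_cast b1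
      linarith
    rw [← hZ]
    nlinarith
  have pos : ∀ q ∈ S, 0 < orderOf (c : ZMod q) := fun q hq => by
    obtain ⟨-, b1, -, -, b2, -⟩ := mS q hq
    exact Nat.pos_of_dvd_of_pos b2 (by have := b1.two_le; omega)
  have a5 : ∑ n ∈ S1, Λ n ≤ l / 4 * N := by
    refine (small_ord hc ⌊r / M⌋₊ S1 fun q hq => ?_).trans ?_
    · obtain ⟨b1, b2⟩ := mem_filter.1 hq
      exact ⟨(mS q b1).2.1, pos q b1, b2⟩
    have b1 := Nat.floor_le (show 0 ≤ r / M by positivity)
    calc _ ≤ (r / M) ^ 2 * Real.log c := by gcongr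
      _ = l / 4 * N * (4 * Real.exp 6 * Real.log c / M0 ^ 2) := by
          rw [div_pow, r3, hl, hM]; field_simp
      _ ≤ l / 4 * N * 1 := by
          gcongr
          rw [div_le_one (by positivity)]
          nlinarith
      _ = _ := mul_one _
  have a6 : ∑ n ∈ S2, Λ n ≤ l / 8 * N + 8 * (K + M) * Real.exp 388 * Z * R := by
    refine (sum_le_card (N := N) fun n hn => (mS n (mem_filter.1 hn).1).1).trans ?_
    have hm : ∀ q ∈ S2, orderOf (c : ZMod q) * ((q - 1) / orderOf (c : ZMod q)) + 1 = q :=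
      fun q hq => by
        obtain ⟨-, b1, -, -, b2, -⟩ := mS q (mem_filter.1 hq).1
        rw [Nat.mul_div_cancel' b2, Nat.sub_add_cancel b1.one_le]
    have b := box (t := t) (by linarith) (P0 := P0) (sdiff_subset_sdiff (fun p hp => mem_Pr.2
      ⟨(mem_Pr.1 hp).1.trans (Real.exp_le_exp.2 (by linarith)), (mem_Pr.1 hp).2⟩) subset_rfl)
      (⌊K * r⌋₊ + 1) (⌊M * r⌋₊ + 1)
      (S2.image fun q => (orderOf (c : ZMod q), (q - 1) / orderOf (c : ZMod q))) fun z hz => by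
        obtain ⟨q, hq, rfl⟩ := mem_image.1 hz
        obtain ⟨c1, c2⟩ := mem_filter.1 hq
        obtain ⟨b0, b1, b2, b3, b4, b5⟩ := mS q c1
        have c3 := hm q hq
        refine ⟨Nat.lt_succ_of_le (Nat.le_floor b5.le), Nat.lt_succ_of_le (Nat.le_floor ?_),
          c3.symm ▸ b1, c3.symm ▸ b2, by rwa [Nat.mul_div_cancel' b4]⟩
        have c4 : r / M < orderOf (c : ZMod q) := Nat.lt_of_floor_lt (not_le.1 c2)
        have c5 : (orderOf (c : ZMod q) : ℝ) * ((q - 1) / orderOf (c : ZMod q) : ℕ) ≤ r ^ 2 := by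
          rw [r3]; exact_mod_cast (by omega : _ * _ ≤ N)
        rw [div_lt_iff₀ (by linarith)] at c4
        have c6 : (0 : ℝ) ≤ ((q - 1) / orderOf (c : ZMod q) : ℕ) := by positivity
        refine le_of_mul_le_mul_left ?_ (show 0 < r by linarith)
        nlinarith
    rw [card_image_of_injOn fun a ha b hb h => (hm a ha).symm.trans ((congrArg
      (fun z : ℕ × ℕ => z.1 * z.2 + 1) h).trans (hm b hb)), ← hσ, Real.exp_neg,
      show Real.exp (2 * σ) = u ^ 4 by rw [two_mul, Real.exp_add, u2]; ring] at b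
    have bA : ((⌊K * r⌋₊ + 1 : ℕ) : ℝ) ≤ 2 * (K * r) := by
      have := Nat.floor_le (show 0 ≤ K * r by positivity)
      push_cast
      nlinarith
    have bB : ((⌊M * r⌋₊ + 1 : ℕ) : ℝ) ≤ 2 * (M * r) := by
      have := Nat.floor_le (show 0 ≤ M * r by positivity)
      push_cast
      nlinarith
    have t0 : 0 < t := by linarith
    have b2 : (#S2 : ℝ) ≤ 8 * Real.exp 18 * (2 * (K * r)) * (2 * (M * r)) * (u ^ 4)⁻¹ / t +
        4 * (2 * (K * r) + 2 * (M * r)) * Real.exp (64 * t + 388) := b.trans (by gcongr)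
    have b3 : 8 * Real.exp 18 * (2 * (K * r)) * (2 * (M * r)) * (u ^ 4)⁻¹ / t * Z =
        l / 8 * N * (U / u) := by
      rw [← r3, hl, hM, hU, ht, show Real.exp 24 = Real.exp 18 * Real.exp 6 by
        rw [← Real.exp_add]; norm_num]
      field_simp
      ring
    have b4 : l / 8 * N * (U / u) ≤ l / 8 * N :=
      mul_le_of_le_one_right (by positivity) ((div_le_one u0).2 uU)
    have b5 : 4 * (2 * (K * r) + 2 * (M * r)) * Real.exp (64 * t + 388) * Z ≤
        8 * (K + M) * Real.exp 388 * Z * R := by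
      calc _ = 8 * (K + M) * Real.exp 388 * Z * (r * Real.exp (64 * t)) := by
            rw [Real.exp_add]; ring
        _ ≤ _ := by gcongr
    have b6 := mul_le_mul_of_nonneg_right b2 (show 0 ≤ Z by linarith)
    rw [← hZ]
    linarith
  have a7 : l / 8 * (N / Z) ≤ l / 8 * N := by gcongr; exact div_le_self z0.le h5
  have a8 : 0 < l * N := by positivity
  linarith

end Pool.Agent.P.MP_74dd9d_nt.AE
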