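import Pool.Agent.P.MP_74dd9d_nt.Defs
import Pool.Agent.P.MP_74dd9d_nt.AE.Ord
import Pool.Agent.P.MP_74dd9d_nt.AE.Coset

/-! Each new prime leaves at most two thirds of the uncovered exponents uncovered. -/

set_option autoImplicit false

namespace Pool.Agent.P.MP_74dd9d_nt.AE

open Finset

lemma jac (c b n : ℕ) (q : ℕ) [Fact q.Prime] : jacobiSym (Delta c b n) q = quadraticChar (ZMod q)
    (((b : ZMod q) * (c : ZMod q) ^ n + ((c - 1) / b : ℕ)) ^ 2 + 4 * (c : ZMod q) ^ n) := by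
  rw [← jacobiSym.legendreSym.to_jacobiSym, legendreSym, Delta]
  generalize (c - 1) / b = a
  push_cast
  rfl

lemma modeq (c m q : ℕ) : c ^ m ≡ 1 [MOD q] ↔ (c : ZMod q) ^ m = 1 := by
  rw [← ZMod.natCast_eq_natCast_iff]
  push_cast
  rfl

theorem iter {c b : ℕ} (hc : 2 ≤ c) (hb : b ∣ c - 1) (i : ℕ) :
    ∃ (C : Finset ℕ) (l : ℕ), (∀ q ∈ C, q.Prime ∧ c < q) ∧ 0 < l ∧
      (∀ m, (∀ q ∈ C, c ^ m ≡ 1 [MOD q]) ↔ l ∣ m) ∧
      (#{n ∈ range l | ∀ q ∈ C, jacobiSym (Delta c b n) q = -1} : ℝ) ≤ (2 / 3) ^ i * l := by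
  induction i with
  | zero => exact ⟨∅, 1, by simp, one_pos, by simp, by simp⟩
  | succ i ih =>
    obtain ⟨C, l, h1, h2, h3, h4⟩ := ih
    have l1 : (1 : ℝ) ≤ l := by exact_mod_cast h2
    obtain ⟨q, q1, q2, q3⟩ := big_order hc (K := 75 * l) (by linarith)
    have : Fact q.Prime := ⟨q1⟩
    have nz : ∀ x, 0 < x → x ≤ c → (x : ZMod q) ≠ 0 := fun x a b => by
      rw [Ne, ZMod.natCast_eq_zero_iff]
      exact Nat.not_dvd_of_pos_of_lt a (by omega)
    have c0 := nz c (by omega) le_rfl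
    have b0 := nz b (Nat.pos_of_dvd_of_pos hb (by omega)) ((Nat.le_of_dvd (by omega) hb).trans
      (Nat.sub_le _ _))
    have a0 := nz ((c - 1) / b) (Nat.div_pos (Nat.le_of_dvd (by omega) hb)
      (Nat.pos_of_dvd_of_pos hb (by omega))) ((Nat.div_le_self _ _).trans (Nat.sub_le _ _))
    have ab : (((c - 1) / b : ℕ) : ZMod q) * b + 1 ≠ 0 := by
      rw [← Nat.cast_mul, Nat.div_mul_cancel hb, ← Nat.cast_succ, Nat.succ_eq_add_one,
        Nat.sub_add_cancel (by omega)]
      exact c0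
    set d := orderOf ((c : ZMod q) ^ l) with hd
    have d1 : d * (orderOf (c : ZMod q)).gcd l = orderOf (c : ZMod q) := by
      rw [hd, orderOf_pow' _ h2.ne', Nat.div_mul_cancel (Nat.gcd_dvd_left _ _)]
    have d2 : 75 * √q ≤ d := by
      have e : (orderOf (c : ZMod q) : ℝ) ≤ d * l := by
        exact_mod_cast d1.ge.trans (Nat.mul_le_mul_left d (Nat.gcd_le_right _ h2))
      exact le_of_mul_le_mul_right (by linarith) (show (0 : ℝ) < l by linarith)
    have d0 : 0 < d := by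
      have : (0 : ℝ) < √q := Real.sqrt_pos.2 (by exact_mod_cast q1.pos)
      exact_mod_cast (by linarith : (0 : ℝ) < d)
    have d3 : l * d = (orderOf (c : ZMod q)).lcm l := by
      refine Nat.eq_of_mul_eq_mul_left (Nat.gcd_pos_of_pos_right (orderOf (c : ZMod q)) h2) ?_
      rw [Nat.gcd_mul_lcm]
      linear_combination l * d1
    refine ⟨insert q C, l * d, (forall_mem_insert _ _ _).2 ⟨⟨q1, q2⟩, h1⟩, Nat.mul_pos h2 d0,
      fun m => by rw [forall_mem_insert, h3, modeq, d3, Nat.lcm_dvd_iff, orderOf_dvd_iff_pow_eq_one],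
      ?_⟩
    rw [card_eq_sum_card_fiberwise (f := (· % l))
      (t := {n ∈ range l | ∀ q ∈ C, jacobiSym (Delta c b n) q = -1}) fun n hn => ?_]
    · push_cast
      refine (sum_le_card_nsmul _ _ (2 / 3 * d : ℝ) fun r _ => ?_).trans ?_
      · refine le_trans (Nat.cast_le.2 (card_le_card_of_injOn (· / l) (fun n hn => ?_)
          fun n hn n' hn' e => ?_)) (coset (by omega) a0 b0 ab (pow_ne_zero r c0)
            (pow_ne_zero l c0) d2)
        · obtain ⟨e1, e2⟩ := mem_filter.1 hn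
          obtain ⟨e3, e4⟩ := mem_filter.1 e1
          have e5 := e4 q (mem_insert_self _ _)
          refine mem_filter.2 ⟨mem_range.2 (Nat.div_lt_of_lt_mul (mem_range.1 e3)), ?_⟩
          rwa [jac, ← Nat.mod_add_div n l, pow_add, pow_mul, show n % l = r from e2] at e5
        · rw [← Nat.mod_add_div n l, ← Nat.mod_add_div n' l, show n / l = n' / l from e,
            show n % l = r from (mem_filter.1 hn).2, show n' % l = r from (mem_filter.1 hn').2]
      · rw [nsmul_eq_mul]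
        calc _ ≤ (2 / 3) ^ i * l * (2 / 3 * d : ℝ) := by gcongr
          _ = _ := by ring
    · refine mem_filter.2 ⟨mem_range.2 (Nat.mod_lt _ h2), fun p hp => ?_⟩
      have : Fact p.Prime := ⟨(h1 p hp).1⟩
      have e := (mem_filter.1 hn).2 p (mem_insert_of_mem hp)
      rw [jac] at e ⊢
      rwa [← pow_eq_pow_mod n ((modeq c l p).1 ((h3 l).2 dvd_rfl p hp))]

end Pool.Agent.P.MP_74dd9d_nt.AE
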