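import Pool.Agent.P.MP_74dd9d_nt.PS.Smooth
import Pool.Agent.P.MP_e86632_nt.PNT

/-! Primes `q` with `q - 1` free of given small primes: a lower bound and a sieve bound. -/

set_option autoImplicit false

namespace Pool.Agent.P.MP_74dd9d_nt.AE

open Finset Filter Topology ArithmeticFunction

lemma rough (P : Finset ℕ) (hP : ∀ p ∈ P, p.Prime) : ∀ m : ℕ, 0 < m → (∀ p ∈ P, ¬ p ∣ m) →
    Tendsto (fun N : ℕ => (∑ n ∈ range (N + 1),
      ind (n ≡ 1 [MOD m] ∧ ∀ p ∈ P, ¬ n ≡ 1 [MOD p]) * Λ n) / (N : ℝ)) atTop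
      (𝓝 (1 / (m.totient : ℝ) * ∏ p ∈ P, (1 - 1 / ((p : ℝ) - 1)))) := by
  induction P using Finset.induction_on with
  | empty =>
    intro m hm _
    have : NeZero m := ⟨hm.ne'⟩
    have := MP_e86632_nt.pnt_ap m 1 isUnit_one
    rw [prod_empty, mul_one]
    refine this.congr fun N => congrArg (· / (N : ℝ)) (sum_congr rfl fun n _ => ?_)
    have e : (n : ZMod m) = 1 ↔ n ≡ 1 [MOD m] := by
      rw [← ZMod.natCast_eq_natCast_iff, Nat.cast_one]
    by_cases h : n ≡ 1 [MOD m] <;> simp [ind, e, h]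
  | insert p P hp ih =>
    intro m hm h
    have pp := hP p (mem_insert_self _ _)
    have hP' : ∀ r ∈ P, r.Prime := fun r hr => hP r (mem_insert_of_mem hr)
    have co : m.Coprime p := ((Nat.Prime.coprime_iff_not_dvd pp).2 (h p (mem_insert_self _ _))).symm
    have h1 := ih hP' m hm fun r hr => h r (mem_insert_of_mem hr)
    have h2 := ih hP' (m * p) (Nat.mul_pos hm pp.pos) fun r hr e => by
      rcases (hP' r hr).dvd_mul.1 e with e | e
      · exact h r (mem_insert_of_mem hr) e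
      · exact hp ((Nat.prime_dvd_prime_iff_eq (hP' r hr) pp).1 e ▸ hr)
    have h3 := h1.sub h2
    rw [Nat.totient_mul co, Nat.totient_prime pp, Nat.cast_mul, Nat.cast_sub pp.one_le,
      Nat.cast_one] at h3
    rw [prod_insert hp]
    convert h3 using 2 with N
    · rw [← sub_div, ← sum_sub_distrib]
      refine congrArg (· / (N : ℝ)) (sum_congr rfl fun n _ => ?_)
      rw [← Nat.modEq_and_modEq_iff_modEq_mul co, forall_mem_insert]
      by_cases a : n ≡ 1 [MOD m] <;> by_cases b : n ≡ 1 [MOD p] <;> simp [ind, a, b]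
    · rw [← one_div_mul_one_div]
      ring

lemma prod_lower {P : Finset ℕ} (hP : ∀ p ∈ P, 8 ≤ p) :
    Real.exp (-∑ p ∈ P, 1 / (p : ℝ) - 6) ≤ ∏ p ∈ P, (1 - 1 / ((p : ℝ) - 1)) := by
  have s4 : ∑ q ∈ P, ((q : ℝ) ^ 2)⁻¹ ≤ 2 := by
    refine le_trans (sum_le_sum_of_subset_of_nonneg (fun q hq => ?_) fun _ _ _ => by positivity)
      (sum_inv_sq_Icc (P.sup id))
    exact mem_Icc.2 ⟨by have := hP q hq; omega, le_sup (f := id) hq⟩
  refine le_trans (b := Real.exp (∑ p ∈ P, (-(1 / (p : ℝ)) - 3 * ((p : ℝ) ^ 2)⁻¹)))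
    (Real.exp_le_exp.2 ?_) ?_
  · rw [sum_sub_distrib, sum_neg_distrib, ← mul_sum]
    linarith
  rw [Real.exp_sum]
  refine prod_le_prod (fun _ _ => (Real.exp_pos _).le) fun p hp => ?_
  have h8 : (8 : ℝ) ≤ p := by exact_mod_cast hP p hp
  have h1 : (p : ℝ) - 1 ≠ 0 := by linarith
  have h2 : (0 : ℝ) < p - 2 := by linarith
  have h3 : 1 / ((p : ℝ) - 2) ≤ 1 / p + 3 * ((p : ℝ) ^ 2)⁻¹ := by
    rw [div_le_iff₀ h2]
    field_simp
    nlinarith
  have h4 := Real.add_one_le_exp (1 / ((p : ℝ) - 2))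
  calc _ ≤ Real.exp (-(1 / ((p : ℝ) - 2))) := Real.exp_le_exp.2 (by linarith)
    _ ≤ (1 / ((p : ℝ) - 2) + 1)⁻¹ := by rw [Real.exp_neg]; exact inv_anti₀ (by positivity) h4
    _ = _ := by
      rw [show 1 / ((p : ℝ) - 2) + 1 = (p - 1) / (p - 2) by field_simp; ring, inv_div]
      field_simp
      ring

lemma count_E {F : Type*} [Field F] [Fintype F] [DecidableEq F] (R : Prop) :
    ∑ b : F, ∑ a : F, ind (a * b + 1 = 0 ∨ (R ∧ a * b = 0)) =
      (Fintype.card F - 1) * (1 + ind R) + Fintype.card F * ind R := by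
  rw [← add_sum_erase _ _ (mem_univ 0), sum_congr (s₁ := univ.erase 0) rfl
    (g := fun _ => 1 + ind R) fun b hb => by
      rw [← E2_count (ne_of_mem_erase hb) R]
      simp [ne_of_mem_erase hb, and_comm]]
  simp [Nat.cast_sub Fintype.card_pos, add_comm]
  ring

lemma box {t : ℝ} (ht : 0 < t) {P0 : Finset ℕ} (h0 : P0 ⊆ Pr t \ range 8) (A B : ℕ)
    (S : Finset (ℕ × ℕ)) (hS : ∀ z ∈ S, z.1 < A ∧ z.2 < B ∧ (z.1 * z.2 + 1).Prime ∧
      Real.exp t < (z.1 * z.2 + 1 : ℕ) ∧ ∀ p ∈ P0, ¬ p ∣ z.1 * z.2) :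
    (#S : ℝ) ≤ 8 * Real.exp 18 * A * B * Real.exp (-(2 * ∑ p ∈ P0, 1 / (p : ℝ))) / t +
      4 * (A + B) * Real.exp (64 * t + 388) := by
  set P := Pr t \ range 8 with hP
  have m : ∀ q ∈ P, q.Prime ∧ 8 ≤ q ∧ (q : ℝ) ≤ Real.exp t := fun q hq => by
    obtain ⟨h3, h4⟩ := mem_sdiff.1 hq
    exact ⟨(mem_Pr.1 h3).2, by simpa using h4, (mem_Pr.1 h3).1⟩
  have key := sieve (P1 := P) (P2 := ∅) (fun q hq => (m q hq).1) (by simp) (by simp)
    (T1 := 16 * (t + 6)) (T2 := 1) (by linarith) one_pos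
    (fun q a b => (a : ZMod q) * b + 1 = 0 ∨ (q ∈ P0 ∧ (a : ZMod q) * b = 0))
    (fun q a b => by simp) (fun q a b => by simp)
    (fun q => (1 / q - ((q : ℝ) ^ 2)⁻¹) * (1 + ind (q ∈ P0)) + 1 / q * ind (q ∈ P0))
    (fun q => 1 / q + 2 * (1 / q * ind (q ∈ P0)) - 2 * ((q : ℝ) ^ 2)⁻¹) A 0 B (fun q hq => ?_)
    (by simp) ?_ (by simp) (fun q hq => ?_) (by simp) S fun z hz => ?_
  rotate_left
  · have h8 : (8 : ℝ) ≤ q := by exact_mod_cast (m q hq).2.1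
    have h1 : 2 * ((q : ℝ) ^ 2)⁻¹ ≤ 1 / q := by
      rw [← div_eq_mul_inv, div_le_div_iff₀ (by positivity) (by linarith)]; nlinarith
    have h2 : (0 : ℝ) ≤ ((q : ℝ) ^ 2)⁻¹ := by positivity
    have h3 : (0 : ℝ) ≤ 1 / q := by positivity
    rw [div_eq_mul_one_div 4]
    refine ⟨?_, ?_, ?_, (m q hq).2.1⟩ <;> unfold ind <;> split_ifs <;> linarith
  · have := mertens1 ht.le (show P ⊆ Pr t from sdiff_subset)
    linarith
  · have : Fact q.Prime := ⟨(m q hq).1⟩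
    have hq0 : (q : ℝ) ≠ 0 := by exact_mod_cast (m q hq).1.ne_zero
    rw [sum_congr rfl fun (b : ℕ) _ => sum_range_zmod q fun a => ind (a * b + 1 = 0 ∨
      (q ∈ P0 ∧ a * (b : ZMod q) = 0)), sum_range_zmod q fun b => ∑ a : ZMod q,
        ind (a * b + 1 = 0 ∨ (q ∈ P0 ∧ a * b = 0)), count_E, ZMod.card]
    field_simp
  · obtain ⟨a1, a2, a3, a4, a5⟩ := hS z hz
    refine ⟨a1, zero_le, by simpa using a2, fun q hq => ?_, by simp⟩
    obtain ⟨b1, -, b4⟩ := m q hq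
    have b5 : q < z.1 * z.2 + 1 := by exact_mod_cast b4.trans_lt a4
    rintro (h | ⟨h1, h2⟩)
    · have h' : ((z.1 * z.2 + 1 : ℕ) : ZMod q) = 0 := by push_cast; exact h
      have := (Nat.prime_dvd_prime_iff_eq b1 a3).1 ((ZMod.natCast_eq_zero_iff _ _).1 h')
      omega
    · exact a5 q h1 ((ZMod.natCast_eq_zero_iff _ _).1 (by push_cast; exact h2))
  have s1 : ∑ q ∈ P, 1 / (q : ℝ) * ind (q ∈ P0) = ∑ q ∈ P0, 1 / (q : ℝ) := by
    rw [← sum_subset h0 fun q _ hq => by simp [ind, hq]]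
    exact sum_congr rfl fun q hq => by simp [ind, hq]
  rw [sum_empty, sum_sub_distrib, sum_add_distrib, ← mul_sum, ← mul_sum, s1] at key
  have s2 := sum_sdiff_ge (Pr t) (range 8)
  have s3 := sum_range_inv_le 8
  have s4 : ∑ q ∈ P, ((q : ℝ) ^ 2)⁻¹ ≤ 2 := by
    refine le_trans (sum_le_sum_of_subset_of_nonneg (fun q hq => ?_) fun _ _ _ => by positivity)
      (sum_inv_sq_Icc (P.sup id))
    exact mem_Icc.2 ⟨(m q hq).1.pos, le_sup (f := id) hq⟩
  have e1 : Real.exp (6 - (∑ q ∈ P, 1 / (q : ℝ) + 2 * ∑ q ∈ P0, 1 / (q : ℝ) -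
      2 * ∑ q ∈ P, ((q : ℝ) ^ 2)⁻¹) - 0) ≤
      Real.exp 18 * Real.exp (-(2 * ∑ p ∈ P0, 1 / (p : ℝ))) * (2 / t) := by
    refine le_trans ?_ (mul_le_mul_of_nonneg_left (exp_neg_SS ht) (by positivity))
    rw [← Real.exp_add, ← Real.exp_add, SS]
    push_cast at s3
    exact Real.exp_le_exp.2 (by linarith)
  have e2 := mul_le_mul_of_nonneg_left e1 (show (0 : ℝ) ≤ 4 * A * B by positivity)
  have e3 := mul_le_mul_of_nonneg_left (Real.exp_le_exp.2 (show 4 * (16 * (t + 6)) + 3 - 0 ≤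
    64 * t + 388 by linarith)) (show (0 : ℝ) ≤ 4 * A by positivity)
  rw [show 4 * (16 * (t + 6)) + 4 * 1 = 64 * t + 388 by ring] at key
  have e4 : (0 : ℝ) ≤ B * Real.exp (64 * t + 388) := by positivity
  calc _ ≤ 4 * A * B * (Real.exp 18 * Real.exp (-(2 * ∑ p ∈ P0, 1 / (p : ℝ))) * (2 / t)) +
        4 * (A + B) * Real.exp (64 * t + 388) := by linarith
    _ = _ := by ring

end Pool.Agent.P.MP_74dd9d_nt.AE
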